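import Pool.Agent.Helper57_C2.Stmts
import Pool.Agent.Helper86_K9.GRM
import Pool.Agent.Helper25_K9.GRB

/-!
# Squad C2, row GRC: the lattice of a block with defect groups of order `ℓ`
-/

open scoped BigOperators

set_option linter.unusedSectionVars false

noncomputable section

namespace Pool.Agent.PP.C2.H67

open Pool.Agent.PP.K9 Pool.Agent.PP.K9.H86M Pool.Agent.PP.C2

/-- inversion of the finite Fourier transform, for a function which vanishes at `0` -/
theorem four {ℓ : ℕ} [hℓ : Fact ℓ.Prime] {ζ : ℂ} (hζ : IsPrimitiveRoot ζ ℓ) (y : ℕ → ℂ)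
    (hy0 : y 0 = 0) (h : ∀ j ∈ Finset.Ico 1 ℓ, ∑ s ∈ Finset.range ℓ, y s * ζ ^ (s * j) = 0) :
    ∀ s < ℓ, y s = 0 := by
  have hℓ0 : 0 < ℓ := hℓ.out.pos
  have hz0 : ζ ≠ 0 := hζ.ne_zero hℓ0.ne'
  -- the sum of the powers
  have hgeo : ∀ s s' : ℕ, s < ℓ → s' < ℓ → s ≠ s' →
      ∑ j ∈ Finset.range ℓ, ζ ^ (s * j) * (ζ ^ (s' * j))⁻¹ = 0 := by
    intro s s' hs hs' hne
    have e1 : ∀ j, ζ ^ (s * j) * (ζ ^ (s' * j))⁻¹ = (ζ ^ s * (ζ ^ s')⁻¹) ^ j := by
      intro j
      rw [mul_pow, inv_pow, ← pow_mul, ← pow_mul]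
    rw [Finset.sum_congr rfl fun j _ => e1 j]
    have h4 := geom_sum_mul (ζ ^ s * (ζ ^ s')⁻¹) ℓ
    have e2 : (ζ ^ s * (ζ ^ s')⁻¹) ^ ℓ = 1 := by
      rw [mul_pow, inv_pow, ← pow_mul, ← pow_mul, mul_comm s, mul_comm s', pow_mul, pow_mul,
        hζ.pow_eq_one, one_pow, one_pow, inv_one, one_mul]
    rw [e2, sub_self] at h4
    rcases mul_eq_zero.1 h4 with h5 | h5
    · exact h5
    · exfalso
      have h6 : ζ ^ s = ζ ^ s' := by
        have h7 : ζ ^ s * (ζ ^ s')⁻¹ = 1 := sub_eq_zero.1 h5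
        rwa [mul_inv_eq_one₀ (pow_ne_zero _ hz0)] at h7
      exact hne (hζ.pow_inj hs hs' h6)
  have key : ∀ s' < ℓ, (ℓ : ℂ) * y s' = ∑ s ∈ Finset.range ℓ, y s := by
    intro s' hs'
    have h1 : ∑ j ∈ Finset.range ℓ, (∑ s ∈ Finset.range ℓ, y s * ζ ^ (s * j)) *
        (ζ ^ (s' * j))⁻¹ = ∑ s ∈ Finset.range ℓ, y s := by
      rw [Finset.range_eq_Ico, Finset.sum_eq_sum_Ico_succ_bot hℓ0, ← Finset.range_eq_Ico]
      rw [Finset.sum_eq_zero (s := Finset.Ico (0 + 1) ℓ)]
      · simp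
      · intro j hj
        rw [h j hj, zero_mul]
    have h2 : ∑ j ∈ Finset.range ℓ, (∑ s ∈ Finset.range ℓ, y s * ζ ^ (s * j)) *
        (ζ ^ (s' * j))⁻¹ = ∑ s ∈ Finset.range ℓ, y s *
          ∑ j ∈ Finset.range ℓ, ζ ^ (s * j) * (ζ ^ (s' * j))⁻¹ := by
      simp_rw [Finset.sum_mul, Finset.mul_sum]
      rw [Finset.sum_comm]
      refine Finset.sum_congr rfl fun s _ => Finset.sum_congr rfl fun j _ => ?_
      ring
    rw [← h1, h2, Finset.sum_eq_single s']
    · have e1 : ∀ j ∈ Finset.range ℓ, ζ ^ (s' * j) * (ζ ^ (s' * j))⁻¹ = 1 := fun j _ =>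
        mul_inv_cancel₀ (pow_ne_zero _ hz0)
      rw [Finset.sum_congr rfl e1]
      simp
      ring
    · intro s hs hne
      rw [hgeo s s' (Finset.mem_range.1 hs) hs' hne, mul_zero]
    · intro hn
      exact absurd (Finset.mem_range.2 hs') hn
  have h0 := key 0 hℓ0
  rw [hy0, mul_zero] at h0
  intro s hs
  have h1 := key s hs
  rw [← h0] at h1
  rcases mul_eq_zero.1 h1 with h2 | h2
  · exfalso
    exact hℓ0.ne' (by exact_mod_cast h2)
  · exact h2

theorem grc (gra2 : Gra2Stmt) : GrcStmt := by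
  intro ℓ hℓ ι _ ζ hζ a δ hδ h1 h2 E m hE hEm hcard
  classical
  obtain ⟨m', b, cl, hm, hme, hab, hcl, hgram, hbne⟩ := gra2 ℓ ι ζ hζ a δ hδ h1 h2 E hE
  have hℓ1 : 1 < ℓ := hℓ.out.one_lt
  have hE0 : 0 < E := by
    rcases Nat.eq_zero_or_pos E with h | h
    · rw [h] at hme; omega
    · exact h
  have hmm : m' = m := by
    have : E * m' = E * m := by omega
    exact Nat.eq_of_mul_eq_mul_left hE0 this
  subst hmm
  obtain ⟨r, σ, t, W, hr, hσ, hbW, hWr, hc⟩ := Pool.Agent.PP.K9.H25.grb m' E hm ι b hgram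
  obtain ⟨n, φ⟩ : ∃ n : ℕ, Nonempty (Fin n ≃ {x : ι // ∀ j, x ≠ r j}) :=
    ⟨_, ⟨(Fintype.equivFin _).symm⟩⟩
  obtain ⟨φ⟩ := φ
  obtain ⟨p, hpdef⟩ : ∃ p : Fin n → ι, p = fun k => ((φ k : {x : ι // ∀ j, x ≠ r j}) : ι) :=
    ⟨_, rfl⟩
  have hp : Function.Injective p := by
    rw [hpdef]
    intro k l h
    exact φ.injective (Subtype.ext h)
  have hpr : ∀ k j, p k ≠ r j := by
    rw [hpdef]
    exact fun k j => (φ k).2 j
  have hs : ∀ x, (∃ k, p k = x) ∨ ∃ j, r j = x := by
    intro x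
    by_cases h : ∀ j, x ≠ r j
    · left
      refine ⟨φ.symm ⟨x, h⟩, ?_⟩
      rw [hpdef]
      simp
    · right
      push Not at h
      obtain ⟨j, hj⟩ := h
      exact ⟨j, hj.symm⟩
  have sp : ∀ {R : Type} [AddCommMonoid R] (f : ι → R),
      ∑ x, f x = ∑ k, f (p k) + ∑ j, f (r j) := fun f => split p r hp hr hpr hs f
  have hcardι : Fintype.card ι = n + m' := by
    have h3 := sp (fun _ => (1 : ℕ))
    simpa using h3
  obtain ⟨c, hcdef⟩ : ∃ c : ℤ, c = (m' : ℤ) * t + 1 := ⟨_, rfl⟩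
  rw [← hcdef] at hc
  obtain ⟨w, hwdef⟩ : ∃ w : Fin n → ℤ, w = fun k => W (p k) := ⟨_, rfl⟩
  have hbp : ∀ j k, b j (p k) = w k := by
    intro j k
    rw [hbW, if_neg (hpr k j), add_zero, hwdef]
  have hbr : ∀ j i, b j (r i) = t * σ i + if i = j then σ j else 0 := by
    intro j i
    rw [hbW, hWr]
    congr 1
    by_cases h : i = j
    · rw [if_pos h, if_pos (by rw [h])]
    · rw [if_neg h, if_neg (fun h' => h (hr h'))]
  have hσs : ∑ j, σ j * σ j = (m' : ℤ) := by
    rw [Finset.sum_congr rfl fun j _ => hσ j]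
    simp
  have hσj : ∀ j, ∑ i, σ i * (if i = j then σ j else 0) = 1 := by
    intro j
    rw [Finset.sum_eq_single j]
    · rw [if_pos rfl, hσ]
    · intro i _ hi
      rw [if_neg hi, mul_zero]
    · intro h
      exact absurd (Finset.mem_univ _) h
  -- orthogonality to the `b j`
  have hgb : ∀ k j, ∑ x, gg p r σ c w k x * b j x = 0 := by
    intro k j
    rw [sp]
    have e1 : ∑ l, gg p r σ c w k (p l) * b j (p l) = c * w k := by
      rw [Finset.sum_eq_single k]
      · rw [g_p hp hpr, if_pos rfl, hbp]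
      · intro l _ hl
        rw [g_p hp hpr, if_neg hl, zero_mul]
      · intro h
        exact absurd (Finset.mem_univ _) h
    have e2 : ∑ i, gg p r σ c w k (r i) * b j (r i) = -(w k * c) := by
      have e3 : ∀ i, gg p r σ c w k (r i) * b j (r i) =
          -(w k) * (t * (σ i * σ i) + σ i * (if i = j then σ j else 0)) := by
        intro i
        rw [g_r hr hpr, hbr]
        ring
      rw [Finset.sum_congr rfl fun i _ => e3 i, ← Finset.mul_sum, Finset.sum_add_distrib,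
        ← Finset.mul_sum, hσs, hσj, hcdef]
      ring
    rw [e1, e2]
    ring
  have hζ0 : ∀ j ∈ Finset.Ico 1 ℓ, ∑ s ∈ Finset.range ℓ, ζ ^ (s * j) = 0 := by
    intro j hj
    have h3 : ∀ s, ζ ^ (s * j) = (ζ ^ j) ^ s := fun s => by rw [mul_comm, pow_mul]
    rw [Finset.sum_congr rfl fun s _ => h3 s]
    have h4 := geom_sum_mul (ζ ^ j) ℓ
    rw [← pow_mul, mul_comm j ℓ, pow_mul, hζ.pow_eq_one, one_pow, sub_self] at h4
    rcases mul_eq_zero.1 h4 with h5 | h5
    · exact h5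
    · exfalso
      have h6 := (hζ.pow_eq_one_iff_dvd j).1 (sub_eq_zero.1 h5)
      rw [Finset.mem_Ico] at hj
      exact absurd (Nat.le_of_dvd hj.1 h6) (not_le.2 hj.2)
  have hδ' : ∀ j ∈ Finset.Ico 1 ℓ, ∀ x, δ j x =
      ∑ s ∈ Finset.Ico 1 ℓ, (b (cl s) x : ℂ) * ζ ^ (s * j) := by
    intro j hj x
    rw [hδ]
    have h3 : ∑ s ∈ Finset.range ℓ, (a x s : ℂ) * ζ ^ (s * j) =
        ∑ s ∈ Finset.range ℓ, ((a x s : ℂ) - (a x 0 : ℂ)) * ζ ^ (s * j) := by
      simp_rw [sub_mul]
      rw [Finset.sum_sub_distrib, ← Finset.mul_sum, hζ0 j hj, mul_zero, sub_zero]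
    rw [h3, Finset.range_eq_Ico, Finset.sum_eq_sum_Ico_succ_bot hℓ1.le, sub_self, zero_mul,
      zero_add, zero_add]
    refine Finset.sum_congr rfl fun s hs' => ?_
    rw [← hab s hs' x]
    push_cast
    rfl
  -- orthogonality to the `δ`
  have hsumδ : ∀ (v : ι → ℂ), ∀ j ∈ Finset.Ico 1 ℓ, ∑ x, v x * δ j x =
      ∑ s ∈ Finset.Ico 1 ℓ, (∑ x, v x * (b (cl s) x : ℂ)) * ζ ^ (s * j) := by
    intro v j hj
    calc ∑ x, v x * δ j x
        = ∑ x, ∑ s ∈ Finset.Ico 1 ℓ, (v x * (b (cl s) x : ℂ)) * ζ ^ (s * j) := by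
          refine Finset.sum_congr rfl fun x _ => ?_
          rw [hδ' j hj, Finset.mul_sum]
          exact Finset.sum_congr rfl fun s _ => by ring
      _ = ∑ s ∈ Finset.Ico 1 ℓ, (∑ x, v x * (b (cl s) x : ℂ)) * ζ ^ (s * j) := by
          rw [Finset.sum_comm]
          exact Finset.sum_congr rfl fun s _ => by rw [Finset.sum_mul]
  have hwne : ∀ k, w k ≠ 0 := by
    intro k
    obtain ⟨j, hj⟩ := hbne (p k)
    rwa [hbp] at hj
  -- the norms
  obtain ⟨N, hN⟩ : ∃ N : ℤ, N = ∑ k, w k * w k := ⟨_, rfl⟩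
  obtain ⟨j0⟩ : Nonempty (Fin m') := ⟨⟨0, hm⟩⟩
  have hnorm : c * c + m' * N = m' * E + 1 := by
    have h3 := hgram j0 j0
    rw [if_pos rfl, sp] at h3
    have e1 : ∀ k, b j0 (p k) * b j0 (p k) = w k * w k := fun k => by rw [hbp]
    have e2 : ∀ i, b j0 (r i) * b j0 (r i) = t * t * (σ i * σ i) +
        (if i = j0 then 2 * t * (σ j0 * σ j0) + σ j0 * σ j0 else 0) := by
      intro i
      rw [hbr]
      by_cases h : i = j0
      · rw [if_pos h, if_pos h, h]
        ring
      · rw [if_neg h, if_neg h]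
        ring
    rw [Finset.sum_congr rfl fun k _ => e1 k, Finset.sum_congr rfl fun i _ => e2 i,
      Finset.sum_add_distrib, ← Finset.mul_sum, Finset.sum_ite_eq', if_pos (Finset.mem_univ _),
      ← hN, hσs, hσ] at h3
    have h5 : N = E - m' * (t * t) - 2 * t := by linarith
    rw [hcdef, h5]
    ring
  have hw1 : ∀ k, 1 ≤ w k * w k := by
    intro k
    have := hwne k
    have h3 : 0 < w k * w k := mul_self_pos.2 this
    omega
  have hNn : (n : ℤ) ≤ N := by
    rw [hN]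
    calc (n : ℤ) = ∑ _k : Fin n, (1 : ℤ) := by simp
      _ ≤ _ := Finset.sum_le_sum fun k _ => hw1 k
  have hnE : (E : ℤ) ≤ n := by
    have : E ≤ n := by omega
    exact_mod_cast this
  have hc1 : 1 ≤ c * c := by
    have h3 : 0 < c * c := mul_self_pos.2 hc
    omega
  have hm1 : (1 : ℤ) ≤ m' := by exact_mod_cast hm
  have hNE : N = E := by
    have h3 : (m' : ℤ) * (N - E) ≤ 0 := by linarith
    have h4 : N - E ≤ 0 := by
      by_contra h
      have h5 : 0 < (m' : ℤ) * (N - E) := mul_pos (by omega) (by omega)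
      omega
    omega
  have hcc : c * c = 1 := by
    rw [hNE] at hnorm
    linarith
  have hnE' : n = E := by
    have h3 : (n : ℤ) = E := by omega
    exact_mod_cast h3
  have hww : ∀ k, w k * w k = 1 := by
    intro k
    have h3 : ∑ k, (w k * w k - 1) = 0 := by
      rw [Finset.sum_sub_distrib, ← hN, hNE, ← hnE']
      simp
    have h4 := (Finset.sum_eq_zero_iff_of_nonneg (fun k _ => by linarith [hw1 k])).1 h3 k
      (Finset.mem_univ _)
    linarith
  subst hnE'
  refine ⟨hcardι, fun k x => w k * gg p r σ c w k x, ?_, ?_, ?_⟩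
  · -- Gram matrix
    intro k l
    rw [sp]
    have e1 : ∑ q, w k * gg p r σ c w k (p q) * (w l * gg p r σ c w l (p q)) =
        if k = l then 1 else 0 := by
      rw [Finset.sum_eq_single k]
      · rw [g_p hp hpr, if_pos rfl, g_p hp hpr]
        by_cases h : k = l
        · rw [if_pos h, if_pos h, ← h]
          have : w k * c * (w k * c) = (w k * w k) * (c * c) := by ring
          rw [this, hww, hcc, one_mul]
        · rw [if_neg h, if_neg h]
          ring
      · intro q _ hq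
        rw [g_p hp hpr, if_neg hq]
        ring
      · intro h
        exact absurd (Finset.mem_univ _) h
    have e2 : ∑ i, w k * gg p r σ c w k (r i) * (w l * gg p r σ c w l (r i)) = (m' : ℤ) := by
      have e3 : ∀ i, w k * gg p r σ c w k (r i) * (w l * gg p r σ c w l (r i)) =
          (w k * w k) * (w l * w l) * (σ i * σ i) := by
        intro i
        rw [g_r hr hpr, g_r hr hpr]
        ring
      rw [Finset.sum_congr rfl fun i _ => e3 i, ← Finset.mul_sum, hσs, hww, hww]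
      ring
    rw [e1, e2]
  · -- orthogonality
    intro j hj k
    rw [hsumδ _ j hj]
    refine Finset.sum_eq_zero fun s _ => ?_
    have h3 : ∑ x, w k * gg p r σ c w k x * b (cl s) x = 0 := by
      have h4 := hgb k (cl s)
      calc ∑ x, w k * gg p r σ c w k x * b (cl s) x
          = w k * ∑ x, gg p r σ c w k x * b (cl s) x := by
            rw [Finset.mul_sum]
            exact Finset.sum_congr rfl fun x _ => by ring
        _ = 0 := by rw [h4, mul_zero]
    have h4 : ∑ x, ((w k * gg p r σ c w k x : ℤ) : ℂ) * (b (cl s) x : ℂ) = 0 := by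
      exact_mod_cast h3
    rw [h4, zero_mul]
  · -- span
    intro f hf
    have hfb : ∀ j, ∑ x, f x * (b j x : ℂ) = 0 := by
      obtain ⟨y, hy⟩ : ∃ y : ℕ → ℂ, y = fun s => if s = 0 then 0 else
        ∑ x, f x * (b (cl s) x : ℂ) := ⟨_, rfl⟩
      have hy0 : y 0 = 0 := by rw [hy]; simp
      have h3 := four hζ y hy0 (by
        intro j hj
        rw [Finset.range_eq_Ico, Finset.sum_eq_sum_Ico_succ_bot hℓ1.le, hy0, zero_mul, zero_add,
          zero_add, ← hf j hj, hsumδ f j hj]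
        refine Finset.sum_congr rfl fun s hs' => ?_
        rw [Finset.mem_Ico] at hs'
        rw [hy]
        show (if s = 0 then (0 : ℂ) else _) * _ = _
        rw [if_neg (by omega)])
      intro j
      obtain ⟨s, hs', hsj⟩ := hcl j
      rw [Finset.mem_Ico] at hs'
      have h4 := h3 s hs'.2
      rw [hy] at h4
      have h5 : (if s = 0 then (0 : ℂ) else ∑ x, f x * (b (cl s) x : ℂ)) = 0 := h4
      rw [if_neg (by omega), hsj] at h5
      exact h5
    obtain ⟨S, hS⟩ : ∃ S : ℂ, S = ∑ k, f (p k) * (w k : ℂ) := ⟨_, rfl⟩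
    obtain ⟨R, hR⟩ : ∃ R : ℂ, R = ∑ i, (σ i : ℂ) * f (r i) := ⟨_, rfl⟩
    have hj : ∀ j, S + t * R + σ j * f (r j) = 0 := by
      intro j
      have h3 := hfb j
      rw [sp] at h3
      have e1 : ∀ k, f (p k) * (b j (p k) : ℂ) = f (p k) * (w k : ℂ) := fun k => by rw [hbp]
      have e2 : ∀ i, f (r i) * (b j (r i) : ℂ) = (t : ℂ) * ((σ i : ℂ) * f (r i)) +
          (if i = j then (σ j : ℂ) * f (r j) else 0) := by
        intro i
        rw [hbr]
        by_cases h : i = j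
        · rw [if_pos h, if_pos h, h]
          push_cast
          ring
        · rw [if_neg h, if_neg h]
          push_cast
          ring
      rw [Finset.sum_congr rfl fun k _ => e1 k, Finset.sum_congr rfl fun i _ => e2 i,
        Finset.sum_add_distrib, ← Finset.mul_sum, Finset.sum_ite_eq', if_pos (Finset.mem_univ _),
        ← hS, ← hR] at h3
      linear_combination h3
    obtain ⟨y, hy⟩ : ∃ y : ℂ, y = -(S + t * R) := ⟨_, rfl⟩
    have hyj : ∀ j, (σ j : ℂ) * f (r j) = y := fun j => by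
      rw [hy]
      linear_combination hj j
    have hRm : R = m' * y := by
      rw [hR, Finset.sum_congr rfl fun i _ => hyj i]
      simp
    have hcy : (c : ℂ) * y = -S := by
      have h3 : y = -(S + t * (m' * y)) := by rw [← hRm, ← hy]
      rw [hcdef]
      push_cast
      linear_combination h3
    have hσc : ∀ j, (σ j : ℂ) * (σ j : ℂ) = 1 := fun j => by exact_mod_cast hσ j
    have hccc : (c : ℂ) * (c : ℂ) = 1 := by exact_mod_cast hcc
    have hwwc : ∀ k, (w k : ℂ) * (w k : ℂ) = 1 := fun k => by exact_mod_cast hww k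
    have hfr : ∀ j, f (r j) = -((σ j : ℂ) * (c : ℂ) * S) := by
      intro j
      have h3 : f (r j) = (σ j : ℂ) * y := by
        rw [← hyj j, ← mul_assoc, hσc, one_mul]
      have h4 : y = -((c : ℂ) * S) := by
        have h5 : y = (c : ℂ) * ((c : ℂ) * y) := by rw [← mul_assoc, hccc, one_mul]
        rw [h5, hcy]
        ring
      rw [h3, h4]
      ring
    refine ⟨fun k => f (p k) * w k * c, fun x => ?_⟩
    show f x = ∑ k, f (p k) * (w k : ℂ) * (c : ℂ) * ((w k * gg p r σ c w k x : ℤ) : ℂ)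
    rcases hs x with ⟨l, hl⟩ | ⟨j, hj'⟩
    · rw [← hl, Finset.sum_eq_single l]
      · rw [g_p hp hpr, if_pos rfl]
        push_cast
        have : f (p l) * (w l : ℂ) * (c : ℂ) * ((w l : ℂ) * (c : ℂ)) =
          f (p l) * ((w l : ℂ) * (w l : ℂ)) * ((c : ℂ) * (c : ℂ)) := by ring
        rw [this, hwwc, hccc]
        ring
      · intro k _ hk
        rw [g_p hp hpr, if_neg (Ne.symm hk)]
        push_cast
        ring
      · intro h
        exact absurd (Finset.mem_univ _) h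
    · rw [← hj', hfr j]
      have e1 : ∀ k, f (p k) * (w k : ℂ) * (c : ℂ) * ((w k * gg p r σ c w k (r j) : ℤ) : ℂ) =
          -((σ j : ℂ) * (c : ℂ)) * (f (p k) * (w k : ℂ)) := by
        intro k
        rw [g_r hr hpr]
        push_cast
        have : f (p k) * (w k : ℂ) * (c : ℂ) * ((w k : ℂ) * -((w k : ℂ) * (σ j : ℂ))) =
          -((σ j : ℂ) * (c : ℂ)) * (f (p k) * (w k : ℂ)) * ((w k : ℂ) * (w k : ℂ)) := by ring
        rw [this, hwwc, mul_one]
      rw [Finset.sum_congr rfl fun k _ => e1 k, ← Finset.mul_sum, ← hS]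
      ring

end Pool.Agent.PP.C2.H67
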