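import Pool.Agent.Helper57_C2.Stmts
import Pool.Agent.Helper9_K9.DTL
import Pool.Agent.Helper75_PP.Corner
import Pool.Agent.Helper53_K9.Tra
import Pool.Agent.Helper82_K9.TRB
import Pool.Agent.Helper82_K9.WBO
import Pool.Agent.Helper25_K9.ADA
import Pool.Agent.Helper20_K9.Adp
import Pool.Agent.Helper77_K9.INT
import Pool.Agent.Helper27_K9.PRT
import Pool.Agent.Helper10_K9.SM2
import Pool.Agent.Helper25_K9.ROT
import Pool.Agent.Helper65_K9.AZR
import Pool.Agent.Helper3_K9.Psi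
import Pool.Agent.Helper86_K9.CE0
import Pool.Agent.Helper1_K9.DZO
import Pool.Agent.Helper2_K9.PUG
import Pool.Agent.Helper69_K9.Kap
import Pool.Agent.Helper88_K9.Val
import Pool.Agent.Helper97_K9.NZR
import Pool.Agent.Helper97_K9.ORB
import Pool.Agent.Helper34_K9.INX
import Pool.Agent.Helper19_K9.OMG
import Pool.Agent.Helper6_K9.NZ
import Pool.Agent.Helper25_K9.PRG
import Pool.Agent.Helper86_K9.SEC
import Pool.Agent.Helper24_K9.TRN
import Pool.Agent.Helper3_K9.Lbd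
import Pool.Agent.Helper69_K9.Fmg

/-!
# Squad C2, module STA (helper67): the structure of the blocks with defect groups of order `ℓ`
-/

set_option autoImplicit false

open scoped BigOperators

noncomputable section

namespace Pool.Agent.PP.C2.H67

open Pool.Agent.Helper51_AWC Pool.Agent.Helper79_WRA Pool.Agent.PP Pool.Agent.PP.KF
open Pool.Agent.PP.K9 Pool.Agent.PP.K9.H11 Pool.Agent.PP.K9.H9

attribute [local instance] Ideal.Quotient.field

open Classical in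
/-- the automiser of a subgroup of prime order -/
theorem grp {G : Type} [Group G] [Finite G] {ℓ : ℕ} [Fact ℓ.Prime] {v : G} (hv : orderOf v = ℓ)
    {T : Subgroup G} (hT : T ≤ Subgroup.normalizer (Subgroup.zpowers v : Set G)) :
    (∃ t₀ ∈ T, ∀ t ∈ T, ∃ k : ℕ,
      t₀ ^ k * t ∈ Subgroup.centralizer (Subgroup.zpowers v : Set G)) ∧
    (∃ m : ℕ, (Subgroup.centralizer (Subgroup.zpowers v : Set G)).relIndex T * m + 1 = ℓ) ∧
    (Subgroup.centralizer (Subgroup.zpowers v : Set G)).relIndex T =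
      ((Finset.Ico 1 ℓ).filter (fun b => ∃ t ∈ T, v ^ b = t * v * t⁻¹)).card := by
  have hℓ : ℓ.Prime := Fact.out
  set V := Subgroup.zpowers v with hV
  have hVl : Nat.card V = ℓ := by rw [Nat.card_zpowers, hv]
  have : Fact (Nat.card V).Prime := ⟨by rw [hVl]; exact hℓ⟩
  have hcyc : IsCyclic (MulAut V) :=
    isCyclic_of_injective (IsCyclic.mulAutMulEquiv V).toMonoidHom
      (IsCyclic.mulAutMulEquiv V).injective
  set ψ : T →* MulAut V := (Subgroup.normalizerMonoidHom V).comp (Subgroup.inclusion hT) with hψ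
  have hker : ψ.ker = (Subgroup.centralizer (V : Set G)).subgroupOf T := by
    ext t
    rw [MonoidHom.mem_ker, hψ, MonoidHom.comp_apply, ← MonoidHom.mem_ker,
      Subgroup.normalizerMonoidHom_ker, Subgroup.mem_subgroupOf, Subgroup.mem_subgroupOf]
    rfl
  have hval : ∀ (t : T) (x : V), ((ψ t x : V) : G) = (t : G) * x * (t : G)⁻¹ := fun _ _ => rfl
  have hE : (Subgroup.centralizer (V : Set G)).relIndex T = Nat.card ψ.range := by
    rw [Subgroup.relIndex, ← hker, Subgroup.index_ker]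
  have hvV : v ∈ V := Subgroup.mem_zpowers v
  refine ⟨?_, ?_, ?_⟩
  · obtain ⟨⟨g, t₀, rfl⟩, hg⟩ := IsCyclic.exists_generator (α := ψ.range)
    refine ⟨t₀, t₀.2, fun t ht => ?_⟩
    have h1 := hg ⟨ψ ⟨t, ht⟩⁻¹, ⟨⟨t, ht⟩⁻¹, rfl⟩⟩
    rw [← mem_powers_iff_mem_zpowers] at h1
    obtain ⟨k, hk⟩ := h1
    refine ⟨k, ?_⟩
    have h2 : ψ (t₀ ^ k * ⟨t, ht⟩) = 1 := by
      have h3 : ψ t₀ ^ k = ψ ⟨t, ht⟩⁻¹ := congrArg Subtype.val hk
      rw [map_mul, map_pow, h3, ← map_mul, inv_mul_cancel, map_one]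
    rw [← MonoidHom.mem_ker, hker, Subgroup.mem_subgroupOf] at h2
    exact h2
  · have h1 : Nat.card ψ.range ∣ Nat.card (MulAut V) := Subgroup.card_subgroup_dvd_card _
    rw [IsCyclic.card_mulAut, hVl, Nat.totient_prime hℓ] at h1
    obtain ⟨m, hm⟩ := h1
    refine ⟨m, ?_⟩
    rw [hE, ← hm]
    have := hℓ.one_lt
    omega
  · have hS1 : Nat.card {w : G // ∃ t ∈ T, w = t * v * t⁻¹} = Nat.card ψ.range := by
      symm
      have h0 : ∀ α : ψ.range, ∃ t ∈ T, ((α.1 ⟨v, hvV⟩ : V) : G) = t * v * t⁻¹ := by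
        rintro ⟨_, t, rfl⟩
        exact ⟨t, t.2, hval t _⟩
      refine Nat.card_congr (Equiv.ofBijective
        (fun α => (⟨((α.1 ⟨v, hvV⟩ : V) : G), h0 α⟩ : {w : G // ∃ t ∈ T, w = t * v * t⁻¹}))
        ⟨?_, ?_⟩)
      · intro α β hαβ
        have h0' := congrArg Subtype.val hαβ
        have h1 : α.1 ⟨v, hvV⟩ = β.1 ⟨v, hvV⟩ := Subtype.ext h0'
        apply Subtype.ext
        apply MulEquiv.ext
        rintro ⟨x, hx⟩
        obtain ⟨k, hk⟩ := hx
        have h2 : (⟨x, ⟨k, hk⟩⟩ : V) = ⟨v, hvV⟩ ^ k := Subtype.ext hk.symm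
        rw [h2, map_zpow, map_zpow, h1]
      · rintro ⟨w, t, ht, rfl⟩
        exact ⟨⟨ψ ⟨t, ht⟩, ⟨⟨t, ht⟩, rfl⟩⟩, rfl⟩
    have hS2 : Nat.card {w : G // ∃ t ∈ T, w = t * v * t⁻¹} =
        ((Finset.Ico 1 ℓ).filter (fun b => ∃ t ∈ T, v ^ b = t * v * t⁻¹)).card := by
      have h1 : {w : G | ∃ t ∈ T, w = t * v * t⁻¹} = (fun b : ℕ => v ^ b) ''
          (((Finset.Ico 1 ℓ).filter (fun b => ∃ t ∈ T, v ^ b = t * v * t⁻¹) : Finset ℕ) :
            Set ℕ) := by
        ext w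
        constructor
        · rintro ⟨t, ht, rfl⟩
          have h2 : t * v * t⁻¹ ∈ V := ((hT ht) v).1 hvV
          have h3 : t * v * t⁻¹ ≠ 1 := by
            intro h4
            have h5 : v = 1 := by
              have h6 := congrArg (fun x => t⁻¹ * x * t) h4
              simpa [mul_assoc] using h6
            rw [h5, orderOf_one] at hv
            exact hℓ.one_lt.ne hv
          rw [hV, mem_zpowers_iff_mem_range_orderOf, Finset.mem_image] at h2
          obtain ⟨j, hj, hj'⟩ := h2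
          rw [Finset.mem_range, hv] at hj
          refine ⟨j, ?_, hj'⟩
          rw [Finset.mem_coe, Finset.mem_filter, Finset.mem_Ico]
          refine ⟨⟨?_, hj⟩, t, ht, hj'⟩
          rcases Nat.eq_zero_or_pos j with h | h
          · rw [h, pow_zero] at hj'
            exact absurd hj'.symm h3
          · exact h
        · rintro ⟨b, hb, rfl⟩
          rw [Finset.mem_coe, Finset.mem_filter] at hb
          exact hb.2
      change Nat.card ({w : G | ∃ t ∈ T, w = t * v * t⁻¹} : Set G) = _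
      rw [h1, Nat.card_coe_set_eq, Set.InjOn.ncard_image, Set.ncard_coe_finset]
      intro b hb b' hb' hbb
      rw [Finset.mem_coe, Finset.mem_filter, Finset.mem_Ico] at hb hb'
      exact pow_injOn_Iio_orderOf (Set.mem_Iio.2 (by rw [hv]; exact hb.1.2))
        (Set.mem_Iio.2 (by rw [hv]; exact hb'.1.2)) hbb
    rw [hE, ← hS1, hS2]


section av

variable {G H : Type} [Group G] [Group H]

/-- a product of a nontrivial element of order `ℓ` and an element of its centraliser -/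
theorem sing_mul {ℓ : ℕ} [Fact ℓ.Prime] {x y : G} (hxy : Commute x y) (hx : x ^ ℓ = 1)
    (hx1 : x ≠ 1) (hy : Reg ℓ y) : ¬ Reg ℓ (x * y) := by
  intro h
  have hℓ : ℓ.Prime := Fact.out
  have ho : orderOf x = ℓ := orderOf_eq_prime hx hx1
  have h1 : (x * y) ^ (orderOf (x * y) * orderOf y) = 1 := by
    rw [pow_mul, pow_orderOf_eq_one, one_pow]
  have h2 : y ^ (orderOf (x * y) * orderOf y) = 1 := by
    rw [mul_comm, pow_mul, pow_orderOf_eq_one, one_pow]
  rw [hxy.mul_pow, h2, mul_one] at h1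
  have h3 : ℓ ∣ orderOf (x * y) * orderOf y := by
    rw [← ho]
    exact orderOf_dvd_of_pow_eq_one h1
  unfold Reg at h hy
  rcases hℓ.dvd_mul.1 h3 with h4 | h4
  · exact hℓ.one_lt.ne' (Nat.dvd_one.1 (h ▸ Nat.dvd_gcd h4 dvd_rfl))
  · exact hℓ.one_lt.ne' (Nat.dvd_one.1 (hy ▸ Nat.dvd_gcd h4 dvd_rfl))

variable [Finite G]

/-- `Av` vanishes at the functions which vanish at the singular elements. -/
theorem Av_van {ℓ : ℕ} [Fact ℓ.Prime] {v : G} (π : Cu v →* H) (p : H → ℂ) {f : G → ℂ}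
    (hf : ∀ x, ¬ Reg ℓ x → f x = 0) {w : G} (hw : w ^ ℓ = 1) (hw1 : w ≠ 1)
    (hc : ∀ s : Cu v, Commute w (s : G)) : Av ℓ π w p f = 0 := by
  classical
  have := Fintype.ofFinite (Cu v)
  rw [Av_eq, Finset.sum_eq_zero, mul_zero]
  intro s _
  by_cases h : Reg ℓ s
  · rw [if_pos h]
    have h1 : Reg ℓ (s : G) := by
      unfold Reg at h ⊢
      rwa [Subgroup.orderOf_coe]
    rw [hf _ (sing_mul (hc s) hw hw1 h1), zero_mul]
  · rw [if_neg h]

/-- linearity in the character -/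
theorem Av_combC (ℓ : ℕ) {C : Subgroup G} (π : C →* H) (w : G) (p : H → ℂ) {S : Set (G → ℂ)}
    [Fintype S] (a : S → ℂ) :
    Av ℓ π w p (∑ θ : S, a θ • (θ : G → ℂ)) = ∑ θ : S, a θ * Av ℓ π w p θ := by
  classical
  have := Fintype.ofFinite C
  simp only [Av_eq]
  have h1 : ∀ x : G, (∑ θ : S, a θ • (θ : G → ℂ)) x = ∑ θ : S, a θ * (θ : G → ℂ) x := by
    intro x
    rw [Finset.sum_apply]
    exact Finset.sum_congr rfl fun θ _ => by rw [Pi.smul_apply, smul_eq_mul]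
  simp only [h1]
  have h2 : ∀ s : C, (if Reg ℓ s then (∑ θ : S, a θ * (θ : G → ℂ) (w * s)) *
      starRingEnd ℂ (p (π s)) else 0) = ∑ θ : S, a θ *
        (if Reg ℓ s then (θ : G → ℂ) (w * s) * starRingEnd ℂ (p (π s)) else 0) := by
    intro s
    by_cases h : Reg ℓ s
    · simp only [if_pos h]
      rw [Finset.sum_mul]
      exact Finset.sum_congr rfl fun θ _ => by ring
    · simp only [if_neg h, mul_zero, Finset.sum_const_zero]
  simp only [h2]
  rw [Finset.sum_comm, Finset.mul_sum]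
  refine Finset.sum_congr rfl fun θ _ => ?_
  rw [← Finset.mul_sum]
  ring

end av

/-- STA from the modules of squad K9 -/
theorem sta_core (kap : KapStmt) (val : ValStmt) (sec : SecStmt) (int : IntStmt) (azr : AzrStmt)
    (nz : NzStmt) (prg : PrgStmt) (trn : K9.TrnStmt) (lbd : LbdStmt)
    (dtn : DtnStmt) (grc : GrcStmt) (nrm : NrmStmt) (cyc : CycStmt) (col : ColStmt)
    (ine : IneStmt) : StaStmt := by
  intro ℓ _ M _ hM G _ _ e he V hV hVl
  classical
  have hℓ : ℓ.Prime := Fact.out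
  have hF : GoodF ℓ (FF M) := H50.fld ℓ Fact.out M hM
  -- a generator of `V`
  obtain ⟨v, hv, rfl⟩ : ∃ v : G, orderOf v = ℓ ∧ Subgroup.zpowers v = V := by
    obtain ⟨x, hx⟩ := exists_prime_orderOf_dvd_card' (G := V) ℓ (by rw [hVl])
    refine ⟨x, by rw [Subgroup.orderOf_coe, hx], ?_⟩
    apply Subgroup.eq_of_le_of_card_ge
    · rw [Subgroup.zpowers_le]
      exact x.2
    · rw [hVl, Nat.card_zpowers, Subgroup.orderOf_coe, hx]
  have hπ : Qt ℓ v (pq v) := qt hv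
  have hfin : Finite (Hq v) := inferInstance
  have hc' : Cu v ≤ Subgroup.centralizer (Subgroup.zpowers v : Set G) := by
    intro x hx
    rw [Subgroup.mem_centralizer_iff]
    rintro _ ⟨k, rfl⟩
    have : Commute x v := Subgroup.mem_centralizer_singleton_iff.1 hx
    exact (this.zpow_right k).eq.symm
  have hcc : Subgroup.centralizer (Subgroup.zpowers v : Set G) = Cu v := by
    refine le_antisymm (Subgroup.centralizer_le ?_) hc'
    rw [Set.singleton_subset_iff]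
    exact Subgroup.mem_zpowers v
  have hab : ∀ a ∈ Subgroup.zpowers v, ∀ b ∈ Subgroup.zpowers v, a * b = b * a := by
    rintro _ ⟨i, rfl⟩ _ ⟨j, rfl⟩
    exact ((Commute.refl v).zpow_zpow i j).eq
  -- the block of the centraliser
  obtain ⟨γ₀, T, hin⟩ := ine ℓ (FF M) hF G e he _ hV hab
  have hTN : T ≤ Subgroup.normalizer (Subgroup.zpowers v : Set G) := by
    rw [hin.stb]
    exact inf_le_left
  have hCT : Subgroup.centralizer (Subgroup.zpowers v : Set G) ≤ T := by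
    rw [hin.stb, le_inf_iff]
    refine ⟨Subgroup.centralizer_le_normalizer _, fun c hc x => ?_⟩
    by_cases hx : x ∈ Subgroup.centralizer (Subgroup.zpowers v : Set G)
    · exact hin.gam.blk.1.1 ⟨x, hx⟩ ⟨c, hc⟩
    · rw [hin.gam.off x hx, hin.gam.off]
      intro h
      apply hx
      have h2 := Subgroup.mul_mem _ (Subgroup.mul_mem _ (Subgroup.inv_mem _ hc) h) hc
      rwa [show c⁻¹ * (c * x * c⁻¹) * c = x by group] at h2
  obtain ⟨hcyc, ⟨m, hm⟩, hcount⟩ := grp hv hTN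
  set E := (Subgroup.centralizer (Subgroup.zpowers v : Set G)).relIndex T with hEdef
  -- `γ` as a function on the centraliser
  obtain ⟨γ, hγ, hγdef⟩ : ∃ γ : Cu v → FF M, IsBlk γ ∧ γ = fun t : Cu v => γ₀ t := by
    refine ⟨_, ?_, rfl⟩
    have h1 := hin.gam.blk
    rw [hcc] at h1
    exact h1
  have hγe : mulF (fun t : Cu v => e t) γ = γ := by
    rw [hγdef]
    have h1 : (fun t : Cu v => mulF (br (Subgroup.zpowers v) e) γ₀ t) = fun t : Cu v => γ₀ t := by
      rw [hin.und]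
    rw [H75.mulF_res (Cu v) γ₀ (fun x hx => H66.br_of_not_mem (by rwa [hcc]))] at h1
    have h2 : (fun t : Cu v => br (Subgroup.zpowers v) e t) = fun t : Cu v => e t := by
      funext t
      exact H66.br_of_mem (hc' t.2)
    rwa [h2] at h1
  obtain ⟨κ, hk, hr⟩ := kap ℓ M hM G (Hq v) e he v hV (pq v) hπ γ hγ hγe
  have hki : κ ∈ Irr (Hq v) := by
    have h2 : κ ∈ IrrE M (H75.push (pq v) γ) := by rw [hk]; rfl
    exact h2.1
  have hfi : (Irr G).Finite := by
    have := Fintype.ofFinite G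
    exact irr_finite'
  have := (hfi.subset (irrE_sub M e)).fintype
  have hirr := irrE_sub M e
  -- a primitive root of unity
  obtain ⟨ζ, hζ⟩ : ∃ ζ : ℂ, IsPrimitiveRoot ζ ℓ :=
    ⟨_, Complex.isPrimitiveRoot_exp ℓ (Fact.out : ℓ.Prime).ne_zero⟩
  have hpw : ∀ j ∈ Finset.Ico 1 ℓ, v ^ j ≠ 1 := fun j hj => pow_ne' hv hj
  have hpz : ∀ j : ℕ, v ^ j ∈ Subgroup.zpowers v := fun j => Subgroup.npow_mem_zpowers v j
  -- the values outside the block
  have hout : ∀ w ∈ Subgroup.zpowers v, w ≠ 1 →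
      ∀ χ ∈ Irr G, χ ∉ IrrE M e → Av ℓ (pq v) w κ χ = 0 := by
    intro w hw hw1 χ hχ hχ'
    exact azr ℓ M hM G (Hq v) v (pq v) hπ e he.1 γ hγ.1 hγe κ
      (Submodule.subset_span (by rw [hk]; rfl)) hr w hw hw1 χ hχ hχ'
  -- integers
  have hint : ∀ θ : IrrE M e, ∃ m : ℕ → ℤ, ∀ j : ℕ,
      Av ℓ (pq v) (v ^ j) κ θ.1 = ∑ i ∈ Finset.range ℓ, (m i : ℂ) * ζ ^ (i * j) := fun θ =>
    int ℓ G (Hq v) v (pq v) hπ κ (AddSubgroup.subset_closure hki) hr θ.1 (hirr θ.2) ζ hζ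
  choose a ha using hint
  have hδ0 : ∀ j ∈ Finset.Ico 1 ℓ, ∀ θ : IrrE M e, Av ℓ (pq v) (v ^ j) κ θ.1 ≠ 0 := by
    intro j hj θ h0
    have h1 := (prg ℓ M hM).2 G (Hq v) v (pq v) hπ γ hγ.1 _ (hpz j) θ.1 (hirr θ.2)
    rw [pr_single hk, Av_smul, h0, mul_zero] at h1
    refine nz ℓ M hM G e he _ hV hab v (Subgroup.mem_zpowers v) γ hγ hγe ?_ _ (hpz j)
      θ.1 θ.2 h1.symm
    obtain ⟨c, hc⟩ : ∃ c, γ c ≠ 0 := by
      by_contra hcon
      push Not at hcon
      exact hγ.2.1 (funext hcon)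
    refine ⟨c, ?_, hc⟩
    rw [Subgroup.mem_centralizer_iff]
    intro x hx
    apply Subtype.ext
    exact Subgroup.mem_centralizer_iff.1 (hc' c.2) x.1 (Subgroup.mem_subgroupOf.1 hx)
  have hδn : ∀ j ∈ Finset.Ico 1 ℓ, ∑ θ : IrrE M e, Av ℓ (pq v) (v ^ j) κ θ.1 *
      starRingEnd ℂ (Av ℓ (pq v) (v ^ j) κ θ.1) = ℓ := by
    intro j hj
    have h1 := (sec ℓ G (Hq v) v (pq v) hπ κ κ hr hr _ (hpz j) (hpw j hj)).1
    rw [ipn_self hki, mul_one, sum_irr hirr _ (fun χ hχ hχ' => by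
      rw [hout _ (hpz j) (hpw j hj) χ hχ hχ', zero_mul])] at h1
    exact h1
  have hdtn := dtn ℓ M hM G (Hq v) e v γ₀ T hin (pq v) hπ κ hr (by rw [← hγdef]; exact hk)
  have hδ1 : ∀ j ∈ Finset.Ico 1 ℓ, ∀ j' ∈ Finset.Ico 1 ℓ,
      (∃ t ∈ T, v ^ j' = t * v ^ j * t⁻¹) →
      ∀ θ : IrrE M e, Av ℓ (pq v) (v ^ j') κ θ.1 = Av ℓ (pq v) (v ^ j) κ θ.1 :=
    fun j hj j' hj' h θ => (hdtn j hj j' hj').1 h θ.1 (hirr θ.2)
  have hδ2 : ∀ j ∈ Finset.Ico 1 ℓ, ∀ j' ∈ Finset.Ico 1 ℓ,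
      (¬ ∃ t ∈ T, v ^ j' = t * v ^ j * t⁻¹) →
      ∑ θ : IrrE M e, Av ℓ (pq v) (v ^ j) κ θ.1 *
        starRingEnd ℂ (Av ℓ (pq v) (v ^ j') κ θ.1) = 0 := by
    intro j hj j' hj' h
    have h1 := (hdtn j hj j' hj').2 h
    rw [sum_irr hirr _ (fun χ hχ hχ' => by
      rw [hout _ (hpz j) (hpw j hj) χ hχ hχ', zero_mul])] at h1
    exact h1
  have h1ℓ : 1 ∈ Finset.Ico 1 ℓ := Finset.mem_Ico.2 ⟨le_rfl, hℓ.one_lt⟩
  have hEc : E = ((Finset.Ico 1 ℓ).filter (fun b => ∀ θ : IrrE M e,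
      Av ℓ (pq v) (v ^ b) κ θ.1 = Av ℓ (pq v) (v ^ 1) κ θ.1)).card := by
    rw [hcount]
    congr 1
    apply Finset.filter_congr
    intro b hb
    constructor
    · rintro ⟨t, ht, hvb⟩
      exact hδ1 1 h1ℓ b hb ⟨t, ht, by rw [pow_one]; exact hvb⟩
    · intro h
      by_contra hcon
      have h2 := hδ2 1 h1ℓ b hb (by rw [pow_one]; exact hcon)
      simp only [h] at h2
      rw [hδn 1 h1ℓ] at h2
      exact hℓ.ne_zero (by exact_mod_cast h2)
  -- the number of modular characters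
  have hE0 : 0 < E := by
    rcases Nat.eq_zero_or_pos E with h | h
    · rw [h, zero_mul] at hm
      exact absurd hm.symm hℓ.one_lt.ne'
    · exact h
  have hcol := col ℓ M hM G e _ γ₀ T hin {w | w ∈ Subgroup.zpowers v ∧ w ≠ 1} (fun _ => 1)
    (fun w hw => hw) ?_ ?_
  rotate_left
  · intro t ht w hw
    refine ⟨((hTN ht) w).1 hw.1, fun h => hw.2 ?_⟩
    have h6 := congrArg (fun x => t⁻¹ * x * t) h
    simpa [mul_assoc] using h6
  · intro w hw β hβ
    exact (lbd ℓ M hM (Cu w) _ hβ.bk.blk.1 hβ.bk.blk.2.1).1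
  have hk1 : E * m + E * lb e ≤ E * (IrrE M e).ncard := by
    refine le_trans ?_ hcol
    refine Nat.add_le_add_right ?_ _
    have h1 : {w | w ∈ Subgroup.zpowers v ∧ w ≠ 1}.ncard = E * m := by
      have h2 : {w | w ∈ Subgroup.zpowers v ∧ w ≠ 1} = (Subgroup.zpowers v : Set G) \ {1} := by
        ext w
        rfl
      rw [h2, Set.ncard_sdiff_singleton_of_mem (Subgroup.one_mem _)]
      have h3 : (Subgroup.zpowers v : Set G).ncard = ℓ := by
        rw [← Nat.card_coe_set_eq]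
        change Nat.card (Subgroup.zpowers v) = ℓ
        rw [Nat.card_zpowers, hv]
      rw [h3]
      omega
    rw [← h1]
    have hfW : {w | w ∈ Subgroup.zpowers v ∧ w ≠ 1}.Finite := Set.toFinite _
    rw [finsum_mem_eq_finite_toFinset_sum _ hfW, Set.ncard_eq_toFinset_card _ hfW,
      Finset.card_eq_sum_ones]
    refine Finset.sum_le_sum fun w _ => ?_
    rw [one_mul]
    exact Nat.one_le_iff_ne_zero.2 Subgroup.index_ne_zero_of_finite
  have hk2 : m + lb e ≤ (IrrE M e).ncard := by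
    refine Nat.le_of_mul_le_mul_left ?_ hE0
    rw [mul_add]
    exact hk1
  have hnrm : E ≤ lb e := by
    rw [cyc ℓ M hM G e he _ hV hVl]
    exact nrm ℓ M hM G e _ γ₀ T hin hcyc
  have hcard : (IrrE M e).ncard = Fintype.card (IrrE M e) := by
    rw [← Nat.card_coe_set_eq, Nat.card_eq_fintype_card]
  obtain ⟨hkk, g, hgg, hgδ, hgs⟩ := grc ℓ (IrrE M e) ζ hζ a
    (fun j θ => Av ℓ (pq v) (v ^ j) κ θ.1) (fun j θ => ha θ j)
    (fun j hj => ⟨hδ0 j hj, hδn j hj⟩)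
    (fun j hj j' hj' => by
      by_cases h : ∃ t ∈ T, v ^ j' = t * v ^ j * t⁻¹
      · exact Or.inl fun θ => (hδ1 j hj j' hj' h θ).symm
      · exact Or.inr (hδ2 j hj j' hj' h)) E m hEc hm (by omega)
  have hlb : lb e = E := by omega
  refine ⟨m, ?_⟩
  rw [hlb]
  refine ⟨hm, ?_⟩
  -- the virtual characters
  have hmem : ∀ b : IrrE M e → ℤ, (∑ θ : IrrE M e, b θ • (θ : G → ℂ)) ∈ ZE M e := fun b =>
    AddSubgroup.sum_mem _ fun θ _ => AddSubgroup.zsmul_mem _ (AddSubgroup.subset_closure θ.2) _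
  have hRc : ∀ b : IrrE M e → ℤ,
      (∀ j ∈ Finset.Ico 1 ℓ, ∑ θ, (b θ : ℂ) * Av ℓ (pq v) (v ^ j) κ θ.1 = 0) →
      Rc ℓ (∑ θ : IrrE M e, b θ • (θ : G → ℂ)) := by
    intro b hb
    refine ⟨?_, ?_⟩
    · intro x y
      rw [Finset.sum_apply, Finset.sum_apply]
      refine Finset.sum_congr rfl fun θ _ => ?_
      rw [Pi.smul_apply, Pi.smul_apply, irr_conj (hirr θ.2)]
    · refine val ℓ M hM G (Hq v) e he v hV (pq v) hπ _ (ze_span M e (hmem b)) ?_
      intro γ' hγ' hγe' κ' hk' w hw hw1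
      obtain ⟨κ'', hk'', -⟩ := kap ℓ M hM G (Hq v) e he v hV (pq v) hπ γ' hγ' hγe'
      have h1 : κ' = κ'' := by rw [hk''] at hk'; exact hk'
      subst h1
      obtain ⟨w', hw', hw1', hA⟩ := trn ℓ M hM G (Hq v) e he v hV (pq v) hπ γ γ' hγ hγ' hγe hγe'
        κ κ' hk hk'' w hw hw1
      obtain ⟨j, hj, rfl⟩ := pow_of_ne' hv hw' hw1'
      rw [Av_comb, ← hb j hj]
      exact Finset.sum_congr rfl fun θ _ => by rw [hA θ.1 (hirr θ.2)]
  refine ⟨fun i => ∑ θ : IrrE M e, g i θ • (θ : G → ℂ), fun i => ⟨hmem _, hRc _ fun j hj =>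
    hgδ j hj i⟩, ?_, ?_⟩
  · intro i j
    rw [ipn_comb hirr, hgg i j]
    push_cast
    split_ifs <;> simp
  · intro f hf hfR
    have hf' : f ∈ Submodule.span ℂ (Set.range (fun θ : IrrE M e => (θ : G → ℂ))) := by
      rw [Subtype.range_coe]
      exact hf
    obtain ⟨c, hc⟩ := (Submodule.mem_span_range_iff_exists_fun ℂ).1 hf'
    have h1 : ∀ j ∈ Finset.Ico 1 ℓ, ∑ θ : IrrE M e, c θ * Av ℓ (pq v) (v ^ j) κ θ.1 = 0 := by
      intro j hj
      rw [← Av_combC, hc]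
      refine Av_van (pq v) κ hfR.sg ?_ (hpw j hj) ?_
      · rw [← pow_mul, mul_comm, pow_mul, ← hv, pow_orderOf_eq_one, one_pow]
      · intro s
        have h2 : Commute (s : G) v := Subgroup.mem_centralizer_singleton_iff.1 s.2
        exact (h2.pow_right j).symm
    obtain ⟨d, hd⟩ := hgs c h1
    refine ⟨d, ?_⟩
    rw [← hc]
    funext x
    rw [Finset.sum_apply, Finset.sum_apply]
    have h2 : ∀ i : Fin E, (d i • (∑ θ : IrrE M e, g i θ • (θ : G → ℂ))) x =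
        ∑ θ : IrrE M e, d i * ((g i θ : ℂ) * (θ : G → ℂ) x) := by
      intro i
      rw [Pi.smul_apply, Finset.sum_apply, smul_eq_mul, Finset.mul_sum]
      exact Finset.sum_congr rfl fun θ _ => by rw [Pi.smul_apply, zsmul_eq_mul]
    simp only [h2]
    rw [Finset.sum_comm]
    refine Finset.sum_congr rfl fun θ _ => ?_
    rw [Pi.smul_apply, smul_eq_mul, hd θ, Finset.sum_mul]
    exact Finset.sum_congr rfl fun i _ => by ring

/-- STA -/
theorem sta (dtn : DtnStmt) (grc : GrcStmt) (nrm : NrmStmt) (cyc : CycStmt) (col : ColStmt)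
    (ine : IneStmt) : StaStmt := by
  have trb : TrbStmt := K9.H82.trb K9.H53.tra
  have wbo : WboStmt := K9.H82W.wbo trb
  have ada : AdaStmt := K9.H25.ada K9.H20.adp
  have int : IntStmt := K9.H77.int_ ada K9.H27.prt
  have sm2 : Sm2Stmt := K9.H10.sm2 trb
  have rot : RotStmt := K9.H25.rot wbo
  have azr : AzrStmt := K9.H65.azr rot sm2 K9.H3.psi
  have ce0 : Ce0Stmt := K9.H86.ce0 wbo ada K9.H3.psi
  have dzo : K9.DzoStmt := K9.H1.dzo wbo
  have kap : KapStmt := K9.H69.kap dzo K9.H02.pug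
  have val : ValStmt := K9.H88.val K9.H69.fmg sm2 ce0 kap
  have nzr : NzrStmt := K9.H97.nzr K9.H69.fmg K9.H97.orb K9.H34.inx
  have nz : NzStmt := K9.H6.nz K9.H19.omg nzr
  have prg : PrgStmt := K9.H25.prg wbo K9.H3.psi
  exact sta_core kap val K9.H86.sec int azr nz prg (K9.H24.trn K9.H69.fmg K9.H97.orb K9.H3.psi)
    K9.H3.lbd dtn grc nrm cyc col ine

end Pool.Agent.PP.C2.H67
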